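import Mathlib
import Pool.Agent.Helper98.EntropyCutoff.Defs
import Pool.Agent.Helper98.EntropyCutoff.Main

/-!
# Spectral-gap criterion fails for relative entropy (MP_c130e3_pr, Q2)

The definitions (reversible chains, heat kernel, spectral gap, worst-case relative entropy, mixing
time, the conditions (1), (2), (3)) are in `Pool/Agent/Helper98/EntropyCutoff/Defs.lean`.

The family: on the path `0, 1, …, 2m` with one extra edge between the middle `m` and the end `2m`,
the walk moves forward at rate 1/2 and backward at the tiny rate `exp(-m) / 2`, but from the middle
it continues along the path with probability `1/m^2` only and otherwise jumps to the end. The gap is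
at least `1/10`. The worst-case entropy stays above `m^2/4 - 2` up to time `m`, is at most `3` on
`[3m, 6m]`, is at least `1/20` up to time `18m/5`, and vanishes asymptotically at time `6m`.
-/

namespace Pool.Agent.Results.MP_c130e3_pr.EntropyCutoff

open Pool.Agent.Helper98.EntropyCutoff

/-- **The spectral-gap criterion for cutoff fails for relative entropy.** There is a family of
irreducible reversible finite chains for which, with the worst-case relative entropy, `M = ∞` and,
for every `ε > 0`, condition (1) `λ_n t_n → ∞` holds, while condition (2) (cutoff at time `t_n`) and
condition (3) (a `(t_n, λ_n⁻¹)` cutoff) both fail. -/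
theorem result : ∃ (N : ℕ → ℕ) (C : ∀ n, RevChain (Fin (N n))), initial C = ⊤ ∧
    ∀ ε : ℝ, 0 < ε → ProductCondition C ε ∧ ¬ Cutoff C ε ∧
      ¬ WindowCutoff C ε (fun n => ((C n).gap)⁻¹) :=
  main

end Pool.Agent.Results.MP_c130e3_pr.EntropyCutoff
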